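import Pool.Agent.H93.HQ.Targets

namespace Pool.Agent.H87.HQ
open MeasureTheory Set Filter Topology Pool.Agent.H93.HQ
open scoped ENNReal

/-- AM-GM: `r ≤ MX p * (1 + r^s)`. -/
lemma bl1_amgm {p r : ℝ} (hp : 1 < p) (hr : 0 < r) :
    r ≤ MX p * (1 + r ^ (p / (p - 1))) := by
  have hp0 : 0 < p := by linarith
  have hp1 : 0 < p - 1 := by linarith
  have hs : 0 < p / (p - 1) := by positivity
  have hw : (0 : ℝ) ≤ 1 - 1 / p := by
    have : 1 / p ≤ 1 := by
      rw [div_le_one hp0]; exact hp.le
    linarith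
  have h := Real.geom_mean_le_arith_mean2_weighted (w₁ := 1 / p) (w₂ := 1 - 1 / p)
    (p₁ := p) (p₂ := p / (p - 1) * r ^ (p / (p - 1))) (by positivity) hw hp0.le
    (by positivity) (by ring)
  have h1 : 1 / p * p + (1 - 1 / p) * (p / (p - 1) * r ^ (p / (p - 1))) =
      1 + r ^ (p / (p - 1)) := by
    have : (1 - 1 / p) * (p / (p - 1)) = 1 := by field_simp
    rw [← mul_assoc, this]
    field_simp
  have h2 : p ^ (1 / p) * (p / (p - 1) * r ^ (p / (p - 1))) ^ (1 - 1 / p) = r / MX p := by
    rw [Real.mul_rpow hs.le (Real.rpow_nonneg hr.le _), ← Real.rpow_mul hr.le]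
    have : p / (p - 1) * (1 - 1 / p) = 1 := by field_simp
    rw [this, Real.rpow_one, Real.div_rpow hp0.le hp1.le, ← mul_assoc, ← mul_div_assoc,
      ← Real.rpow_add hp0]
    have : 1 / p + (1 - 1 / p) = 1 := by ring
    rw [this, Real.rpow_one, MX]
    have : (p - 1) ^ (1 - 1 / p) ≠ 0 := (Real.rpow_pos_of_pos hp1 _).ne'
    field_simp
  rw [h1, h2] at h
  have hM : 0 < MX p := by unfold MX; positivity
  rw [div_le_iff₀ hM] at h
  linarith [h]

lemma bl1_MX_pos {p : ℝ} (hp : 1 < p) : 0 < MX p := by
  have hp1 : 0 < p - 1 := by linarith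
  have hp0 : 0 < p := by linarith
  unfold MX; positivity

lemma bl1_one {p : ℝ} (hp : 1 < p) :
    ∫⁻ r in Ioi (0 : ℝ), ENNReal.ofReal ((1 + r ^ (p / (p - 1))) ^ (-1 : ℝ)) ≤
      ENNReal.ofReal p := by
  have hp1 : 0 < p - 1 := by linarith
  have hp0 : 0 < p := by linarith
  have hs : 1 < p / (p - 1) := by rw [one_lt_div hp1]; linarith
  have hU : Ioi (0 : ℝ) = Ioc 0 1 ∪ Ioi 1 := (Ioc_union_Ioi_eq_Ioi zero_le_one).symm
  rw [hU]
  refine (lintegral_union_le _ _ _).trans ?_
  have h1 : ∫⁻ r in Ioc (0 : ℝ) 1, ENNReal.ofReal ((1 + r ^ (p / (p - 1))) ^ (-1 : ℝ)) ≤ 1 := by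
    calc ∫⁻ r in Ioc (0 : ℝ) 1, ENNReal.ofReal ((1 + r ^ (p / (p - 1))) ^ (-1 : ℝ))
        ≤ ∫⁻ r in Ioc (0 : ℝ) 1, 1 := by
          refine setLIntegral_mono measurable_const fun r hr => ?_
          rw [ENNReal.ofReal_le_one, Real.rpow_neg_one]
          apply inv_le_one_of_one_le₀
          linarith [Real.rpow_nonneg hr.1.le (p / (p - 1))]
      _ = 1 := by simp
  have h2 : ∫⁻ r in Ioi (1 : ℝ), ENNReal.ofReal ((1 + r ^ (p / (p - 1))) ^ (-1 : ℝ)) ≤
      ENNReal.ofReal (p - 1) := by
    calc ∫⁻ r in Ioi (1 : ℝ), ENNReal.ofReal ((1 + r ^ (p / (p - 1))) ^ (-1 : ℝ))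
        ≤ ∫⁻ r in Ioi (1 : ℝ), ENNReal.ofReal (r ^ (-(p / (p - 1)))) := by
          refine setLIntegral_mono (by fun_prop) fun r hr => ?_
          apply ENNReal.ofReal_le_ofReal
          have hr0 : 0 < r := zero_lt_one.trans hr
          rw [Real.rpow_neg_one, Real.rpow_neg hr0.le]
          apply inv_anti₀ (Real.rpow_pos_of_pos hr0 _)
          linarith
      _ = ENNReal.ofReal (∫ r in Ioi (1 : ℝ), r ^ (-(p / (p - 1)))) := by
          rw [ofReal_integral_eq_lintegral_ofReal]
          · exact integrableOn_Ioi_rpow_of_lt (by linarith) zero_lt_one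
          · filter_upwards [ae_restrict_mem measurableSet_Ioi] with r hr
            exact Real.rpow_nonneg (zero_lt_one.trans hr).le _
      _ = ENNReal.ofReal (p - 1) := by
          rw [integral_Ioi_rpow_of_lt (by linarith) zero_lt_one, Real.one_rpow]
          congr 1
          have : -(p / (p - 1)) + 1 = -(1 / (p - 1)) := by field_simp; ring
          rw [this]
          field_simp
  calc _ ≤ 1 + ENNReal.ofReal (p - 1) := add_le_add h1 h2
    _ = ENNReal.ofReal p := by
        rw [← ENNReal.ofReal_one, ← ENNReal.ofReal_add zero_le_one hp1.le]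
        congr 1
        ring

theorem pf_BL1 : U_BL1 := by
  intro Q p hp hpQ
  have hp1 : 0 < p - 1 := by linarith
  have hp0 : 0 < p := by linarith
  have hQ1 : 0 < Q - 1 := by linarith
  have hs : 1 < p / (p - 1) := by rw [one_lt_div hp1]; linarith
  set s : ℝ := p / (p - 1) with hsdef
  have hM := bl1_MX_pos hp
  set A : ℝ → ℝ := fun r => r ^ (Q - 1) * (1 + r ^ s) ^ (-Q) with hA
  set B : ℝ → ℝ := fun r => r ^ (Q - 1 + s) * (1 + r ^ s) ^ (-Q) with hB
  have h1p : ∀ r : ℝ, 0 ≤ r → 0 < 1 + r ^ s := fun r hr => by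
    linarith [Real.rpow_nonneg hr s]
  have hA0 : ∀ r : ℝ, 0 ≤ r → 0 ≤ A r := fun r hr =>
    mul_nonneg (Real.rpow_nonneg hr _) (Real.rpow_nonneg (h1p r hr).le _)
  have hB0 : ∀ r : ℝ, 0 ≤ r → 0 ≤ B r := fun r hr =>
    mul_nonneg (Real.rpow_nonneg hr _) (Real.rpow_nonneg (h1p r hr).le _)
  have hApos : ∀ r : ℝ, 0 < r → 0 < A r := fun r hr =>
    mul_pos (Real.rpow_pos_of_pos hr _) (Real.rpow_pos_of_pos (h1p r hr.le) _)
  have hmA : Measurable (fun r => ENNReal.ofReal (A r)) := by
    simp only [hA]; fun_prop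
  have hmB : Measurable (fun r => ENNReal.ofReal (B r)) := by
    simp only [hB]; fun_prop
  -- the bound
  have hbd : ∫⁻ r in Ioi (0 : ℝ), ENNReal.ofReal (A r) ≤ ENNReal.ofReal (p * MX p ^ (Q - 1)) := by
    calc ∫⁻ r in Ioi (0 : ℝ), ENNReal.ofReal (A r)
        ≤ ∫⁻ r in Ioi (0 : ℝ), ENNReal.ofReal (MX p ^ (Q - 1)) *
            ENNReal.ofReal ((1 + r ^ s) ^ (-1 : ℝ)) := by
          refine setLIntegral_mono (by fun_prop) fun r hr => ?_
          have hr0 : 0 < r := hr
          rw [← ENNReal.ofReal_mul (Real.rpow_nonneg hM.le _)]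
          apply ENNReal.ofReal_le_ofReal
          have hY := h1p r hr0.le
          have h3 : A r = (r / (1 + r ^ s)) ^ (Q - 1) * (1 + r ^ s) ^ (-1 : ℝ) := by
            simp only [hA]
            rw [Real.div_rpow hr0.le hY.le, div_eq_mul_inv, ← Real.rpow_neg hY.le, mul_assoc,
              ← Real.rpow_add hY]
            congr 2
            ring
          rw [h3]
          apply mul_le_mul_of_nonneg_right _ (Real.rpow_nonneg hY.le _)
          apply Real.rpow_le_rpow (by positivity) _ hQ1.le
          rw [div_le_iff₀ hY]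
          exact bl1_amgm hp hr0
      _ = ENNReal.ofReal (MX p ^ (Q - 1)) *
            ∫⁻ r in Ioi (0 : ℝ), ENNReal.ofReal ((1 + r ^ s) ^ (-1 : ℝ)) := by
          rw [lintegral_const_mul _ (by fun_prop)]
      _ ≤ ENNReal.ofReal (MX p ^ (Q - 1)) * ENNReal.ofReal p := by
          gcongr
          exact bl1_one hp
      _ = ENNReal.ofReal (p * MX p ^ (Q - 1)) := by
          rw [← ENNReal.ofReal_mul (Real.rpow_nonneg hM.le _), mul_comm]
  have hfin : ∫⁻ r in Ioi (0 : ℝ), ENNReal.ofReal (A r) ≠ ⊤ := ne_top_of_le_ne_top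
    ENNReal.ofReal_ne_top hbd
  have hne : ∫⁻ r in Ioi (0 : ℝ), ENNReal.ofReal (A r) ≠ 0 := by
    intro h0
    rw [lintegral_eq_zero_iff hmA] at h0
    have h4 : ∀ᵐ r ∂(volume.restrict (Ioi (0 : ℝ))), False := by
      filter_upwards [h0, ae_restrict_mem measurableSet_Ioi] with r h5 h6
      simp only [Pi.zero_apply, ENNReal.ofReal_eq_zero] at h5
      exact absurd (hApos r h6) (not_lt.2 h5)
    rw [eventually_false_iff_eq_bot, ae_eq_bot, Measure.restrict_eq_zero] at h4
    simp at h4
  refine ⟨(∫⁻ r in Ioi (0 : ℝ), ENNReal.ofReal (A r)).toReal,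
    ENNReal.toReal_pos hne hfin, ?_, ?_, ?_⟩
  · exact ENNReal.toReal_le_of_le_ofReal (by positivity) hbd
  · rw [ENNReal.ofReal_toReal hfin]
  · set J := (∫⁻ r in Ioi (0 : ℝ), ENNReal.ofReal (A r)).toReal with hJ
    have hc : 0 < (Q - p) / (p - 1) := div_pos (by linarith) hp1
    have hcA : ContinuousOn A (Ici 0) := by
      intro r hr
      have hr0 : 0 ≤ r := hr
      apply ContinuousAt.continuousWithinAt
      apply ContinuousAt.mul
      · exact Real.continuousAt_rpow_const _ _ (Or.inr hQ1.le)
      · apply ContinuousAt.rpow_const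
        · exact continuousAt_const.add
            (Real.continuousAt_rpow_const _ _ (Or.inr (by linarith)))
        · exact Or.inl (h1p r hr0).ne'
    have hcB : ContinuousOn B (Ici 0) := by
      intro r hr
      have hr0 : 0 ≤ r := hr
      apply ContinuousAt.continuousWithinAt
      apply ContinuousAt.mul
      · exact Real.continuousAt_rpow_const _ _ (Or.inr (by linarith))
      · apply ContinuousAt.rpow_const
        · exact continuousAt_const.add
            (Real.continuousAt_rpow_const _ _ (Or.inr (by linarith)))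
        · exact Or.inl (h1p r hr0).ne'
    have hcF : ContinuousOn (fun r : ℝ => r ^ Q * (1 + r ^ s) ^ (-(Q - 1))) (Ici 0) := by
      intro r hr
      have hr0 : 0 ≤ r := hr
      apply ContinuousAt.continuousWithinAt
      apply ContinuousAt.mul
      · exact Real.continuousAt_rpow_const _ _ (Or.inr (by linarith))
      · apply ContinuousAt.rpow_const
        · exact continuousAt_const.add
            (Real.continuousAt_rpow_const _ _ (Or.inr (by linarith)))
        · exact Or.inl (h1p r hr0).ne'
    have key : ∀ R : ℝ, 0 < R → ∫⁻ r in Ioc 0 R, ENNReal.ofReal (B r) ≤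
        ENNReal.ofReal (Q * (p - 1) / (Q - p) * J) := by
      intro R hR
      have hsub : Icc 0 R ⊆ Ici (0 : ℝ) := Icc_subset_Ici_self
      have hIA : IntervalIntegrable A volume 0 R := by
        apply ContinuousOn.intervalIntegrable
        rw [uIcc_of_le hR.le]
        exact hcA.mono hsub
      have hIB : IntervalIntegrable B volume 0 R := by
        apply ContinuousOn.intervalIntegrable
        rw [uIcc_of_le hR.le]
        exact hcB.mono hsub
      have hFTC := intervalIntegral.integral_eq_sub_of_hasDerivAt_of_le hR.le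
        (hcF.mono hsub) (f' := fun r => Q * A r - (Q - p) / (p - 1) * B r)
        (fun r hr => by
          have hr0 : 0 < r := hr.1
          have hY := h1p r hr0.le
          have hd1 := Real.hasDerivAt_rpow_const (x := r) (p := Q) (Or.inl hr0.ne')
          have hd2 := Real.hasDerivAt_rpow_const (x := r) (p := s) (Or.inl hr0.ne')
          have hd3 := (hd2.const_add 1).rpow_const (p := -(Q - 1)) (Or.inl hY.ne')
          have hd4 := hd1.mul hd3
          refine hd4.congr_deriv ?_
          simp only [hA, hB]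
          have e1 : (1 + r ^ s) ^ (-(Q - 1)) = (1 + r ^ s) * (1 + r ^ s) ^ (-Q) := by
            have : -(Q - 1) = 1 + -Q := by ring
            rw [this, Real.rpow_add hY, Real.rpow_one]
          have e2 : r ^ Q = r * r ^ (Q - 1) := by
            have : Q = 1 + (Q - 1) := by ring
            conv_lhs => rw [this]
            rw [Real.rpow_add hr0, Real.rpow_one]
          have e3 : r ^ (Q - 1 + s) = r ^ (Q - 1) * r ^ s := Real.rpow_add hr0 _ _
          have e4 : r ^ (s - 1) = r ^ s / r := by
            rw [Real.rpow_sub hr0, Real.rpow_one]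
          have e5 : -(Q - 1) - 1 = -Q := by ring
          rw [e1, e5, e3, e4, e2]
          have hsv : (Q - p) / (p - 1) = (Q - 1) * s - Q := by
            rw [hsdef]; field_simp; ring
          rw [hsv]
          field_simp
          ring)
        (by
          apply IntervalIntegrable.sub
          · exact hIA.const_mul Q
          · exact hIB.const_mul _)
      rw [intervalIntegral.integral_sub (hIA.const_mul Q) (hIB.const_mul _),
        intervalIntegral.integral_const_mul, intervalIntegral.integral_const_mul] at hFTC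
      have hF0 : (0 : ℝ) ^ Q * (1 + 0 ^ s) ^ (-(Q - 1)) = 0 := by
        rw [Real.zero_rpow (by linarith), zero_mul]
      have hFR : 0 ≤ R ^ Q * (1 + R ^ s) ^ (-(Q - 1)) :=
        mul_nonneg (Real.rpow_nonneg hR.le _) (Real.rpow_nonneg (h1p R hR.le).le _)
      have hIJ : ∫ r in (0 : ℝ)..R, A r ≤ J := by
        rw [intervalIntegral.integral_of_le hR.le, hJ,
          integral_eq_lintegral_of_nonneg_ae]
        · apply ENNReal.toReal_mono hfin
          exact lintegral_mono_set Ioc_subset_Ioi_self
        · filter_upwards [ae_restrict_mem measurableSet_Ioc] with r hr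
          exact hA0 r hr.1.le
        · exact ((intervalIntegrable_iff_integrableOn_Ioc_of_le hR.le).1 hIA).1
      have hle : ∫ r in (0 : ℝ)..R, B r ≤ Q * (p - 1) / (Q - p) * J := by
        have h7 : (Q - p) / (p - 1) * ∫ r in (0 : ℝ)..R, B r ≤ Q * J := by
          have := mul_le_mul_of_nonneg_left hIJ (show 0 ≤ Q by linarith)
          simp only [hF0, sub_zero] at hFTC
          linarith
        have h8 : Q * (p - 1) / (Q - p) * J = Q * J / ((Q - p) / (p - 1)) := by
          have : Q - p ≠ 0 := by linarith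
          field_simp
        rw [h8, le_div_iff₀ hc]
        linarith
      calc ∫⁻ r in Ioc 0 R, ENNReal.ofReal (B r)
          = ENNReal.ofReal (∫ r in (0 : ℝ)..R, B r) := by
            rw [intervalIntegral.integral_of_le hR.le, ofReal_integral_eq_lintegral_ofReal]
            · exact (intervalIntegrable_iff_integrableOn_Ioc_of_le hR.le).1 hIB
            · filter_upwards [ae_restrict_mem measurableSet_Ioc] with r hr
              exact hB0 r hr.1.le
        _ ≤ _ := ENNReal.ofReal_le_ofReal hle
    have hun : Ioi (0 : ℝ) = ⋃ k : ℕ, Ioc (0 : ℝ) (k + 1) := by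
      ext r
      simp only [mem_Ioi, mem_iUnion, mem_Ioc]
      constructor
      · intro hr
        obtain ⟨k, hk⟩ := exists_nat_ge r
        exact ⟨k, hr, by linarith⟩
      · rintro ⟨k, hk, -⟩
        exact hk
    have hmono : Monotone (fun k : ℕ => Ioc (0 : ℝ) (k + 1)) := by
      intro a b hab
      apply Ioc_subset_Ioc_right
      have : (a : ℝ) ≤ b := by exact_mod_cast hab
      linarith
    change ∫⁻ r in Ioi (0 : ℝ), ENNReal.ofReal (B r) ≤ _
    rw [hun, setLIntegral_iUnion_of_directed _ hmono.directed_le]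
    exact iSup_le fun k => key _ (by positivity)

end Pool.Agent.H87.HQ
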