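import Pool.Agent.H93.HQ.Targets

namespace Pool.Agent.H87.HQ
open MeasureTheory Set Filter Topology Pool.Agent.H93.HQ

/-- The bound for the second factor. -/
lemma n3_DD {n : ℕ} (hn : 1 ≤ n) {p : ℝ} (h1 : 2 * (n : ℝ) + 1 < p) (h2 : p < 2 * n + 2)
    {a b B : ℝ} (ha : sg n p = a) (hb : sg n (p - 1) = b) (ha0 : 0 < a) (hb0 : 0 < b)
    (hbB : b ≤ B) (hB : B ≤ 3 * a) :
    0 < DD n p B ∧ p * Real.log (DD n p B) ≤
      -(p / (2 * n + 2)) * Real.log B + Real.log 3 +
        (p - 1) * (Real.log (p - 1) - Real.log (2 * n + 2 - p)) + 3 * p / n := by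
  have hn1 : (1 : ℝ) ≤ n := by exact_mod_cast hn
  have hp0 : 0 < p := by linarith
  have hp1 : 0 < p - 1 := by linarith
  have ht : 0 < 2 * (n : ℝ) + 2 - p := by linarith
  have hQ : 0 < 2 * (n : ℝ) + 2 := by linarith
  have hB0 : 0 < B := hb0.trans_le hbB
  set t : ℝ := 2 * (n : ℝ) + 2 - p with htd
  set Q : ℝ := 2 * (n : ℝ) + 2 with hQd
  have ht1 : t < 1 := by linarith
  have hu : 0 < (p - 1) / t := by positivity
  have hw : (0 : ℝ) < 1 - 1 / p := by
    have : 1 / p < 1 := by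
      rw [div_lt_one hp0]; linarith
    linarith
  have e1 : DD n p B = B ^ (-(1 / Q)) * ((B / a) ^ (1 / p) * ((p - 1) / t) ^ (1 - 1 / p) +
      b / a) := by
    unfold DD
    rw [ha, hb, ← hQd, ← htd]
    have e2 : t / (Q * p) = 1 / p + -(1 / Q) := by
      rw [htd]
      field_simp
      ring
    rw [e2, Real.rpow_add hB0, mul_div_assoc a, Real.mul_rpow ha0.le hu.le,
      Real.rpow_sub ha0, Real.rpow_one, Real.div_rpow hB0.le ha0.le]
    have : a ^ (1 / p) ≠ 0 := (Real.rpow_pos_of_pos ha0 _).ne'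
    field_simp
  have hpos : 0 < DD n p B := by
    rw [e1]; positivity
  refine ⟨hpos, ?_⟩
  -- the lower bound for `u ^ (1 - 1 / p)`
  have hv : (n : ℝ) ≤ ((p - 1) / t) ^ (1 - 1 / p) := by
    have h3 : p - 1 ≤ (p - 1) / t := by
      rw [le_div_iff₀ ht]
      exact mul_le_of_le_one_right hp1.le ht1.le
    have h4 : (p - 1) ^ (1 / p) ≤ 2 := by
      have h5 := one_add_mul_self_le_rpow_one_add (s := 1) (by norm_num)
        (show (1 : ℝ) ≤ p by linarith)
      have h6 : p - 1 ≤ 2 ^ p := by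
        have : (1 : ℝ) + 1 = 2 := by norm_num
        rw [this] at h5
        linarith
      calc (p - 1) ^ (1 / p) ≤ ((2 : ℝ) ^ p) ^ (1 / p) :=
            Real.rpow_le_rpow hp1.le h6 (by positivity)
        _ = 2 := by
            rw [← Real.rpow_mul (by norm_num), mul_one_div_cancel hp0.ne', Real.rpow_one]
    calc (n : ℝ) ≤ (p - 1) / 2 := by linarith
      _ ≤ (p - 1) / (p - 1) ^ (1 / p) := by
          apply div_le_div_of_nonneg_left hp1.le (Real.rpow_pos_of_pos hp1 _) h4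
      _ = (p - 1) ^ (1 - 1 / p) := by rw [Real.rpow_sub hp1, Real.rpow_one]
      _ ≤ _ := Real.rpow_le_rpow hp1.le h3 hw.le
  have hn0 : (0 : ℝ) < n := by linarith
  have hle : DD n p B ≤ B ^ (-(1 / Q)) * (3 ^ (1 / p) * ((p - 1) / t) ^ (1 - 1 / p) *
      (1 + 3 / n)) := by
    rw [e1]
    apply mul_le_mul_of_nonneg_left _ (Real.rpow_nonneg hB0.le _)
    have h7 : B / a ≤ 3 := by rw [div_le_iff₀ ha0]; linarith
    have h8 : b / a ≤ 3 := by rw [div_le_iff₀ ha0]; linarith
    have h9 : (B / a) ^ (1 / p) ≤ 3 ^ (1 / p) :=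
      Real.rpow_le_rpow (by positivity) h7 (by positivity)
    have h10 : (1 : ℝ) ≤ 3 ^ (1 / p) := Real.one_le_rpow (by norm_num) (by positivity)
    have h11 : 3 ≤ 3 ^ (1 / p) * ((p - 1) / t) ^ (1 - 1 / p) * (3 / n) := by
      have h12 : (n : ℝ) ≤ 3 ^ (1 / p) * ((p - 1) / t) ^ (1 - 1 / p) := by
        calc (n : ℝ) = 1 * n := (one_mul _).symm
          _ ≤ _ := mul_le_mul h10 hv hn0.le (by positivity)
      calc (3 : ℝ) = n * (3 / n) := by field_simp
        _ ≤ _ := mul_le_mul_of_nonneg_right h12 (by positivity)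
    have h13 : (B / a) ^ (1 / p) * ((p - 1) / t) ^ (1 - 1 / p) ≤
        3 ^ (1 / p) * ((p - 1) / t) ^ (1 - 1 / p) :=
      mul_le_mul_of_nonneg_right h9 (Real.rpow_nonneg hu.le _)
    rw [mul_add, mul_one]
    linarith
  have hlog : Real.log (DD n p B) ≤ -(1 / Q) * Real.log B + (1 / p * Real.log 3 +
      (1 - 1 / p) * (Real.log (p - 1) - Real.log t) + 3 / n) := by
    have h14 := Real.log_le_log hpos hle
    have h15 : (0 : ℝ) < 3 ^ (1 / p) := by positivity
    have h16 : 0 < ((p - 1) / t) ^ (1 - 1 / p) := Real.rpow_pos_of_pos hu _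
    have h17 : 0 < B ^ (-(1 / Q)) := Real.rpow_pos_of_pos hB0 _
    have h18 : (0 : ℝ) < 1 + 3 / n := by positivity
    rw [Real.log_mul h17.ne' (by positivity), Real.log_mul (by positivity) h18.ne',
      Real.log_mul h15.ne' h16.ne', Real.log_rpow hB0, Real.log_rpow (by norm_num),
      Real.log_rpow hu, Real.log_div hp1.ne' ht.ne'] at h14
    have h19 := Real.log_le_sub_one_of_pos h18
    linarith
  have h20 := mul_le_mul_of_nonneg_left hlog hp0.le
  refine h20.trans (le_of_eq ?_)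
  field_simp
  ring

/-- The bound for the first factor. -/
lemma n3_first {n : ℕ} (hn : 1 ≤ n) {p : ℝ} (h1 : 2 * (n : ℝ) + 1 < p) (h2 : p < 2 * n + 2) :
    0 < ((2 * n + 2) * p / (2 * n + 2 - p) * 2 ^ p * Real.log 2) ∧
    (2 * (n : ℝ) + 2 - p) / (2 * n + 2) *
      Real.log ((2 * n + 2) * p / (2 * n + 2 - p) * 2 ^ p * Real.log 2) ≤ 4 := by
  have hn1 : (1 : ℝ) ≤ n := by exact_mod_cast hn
  have hp0 : 0 < p := by linarith
  have ht : 0 < 2 * (n : ℝ) + 2 - p := by linarith
  have hQ : 0 < 2 * (n : ℝ) + 2 := by linarith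
  set t : ℝ := 2 * (n : ℝ) + 2 - p with htd
  set Q : ℝ := 2 * (n : ℝ) + 2 with hQd
  have ht1 : t < 1 := by linarith
  have hl2 : 0 < Real.log 2 := Real.log_pos (by norm_num)
  have hl21 : Real.log 2 ≤ 1 := by linarith [Real.log_two_lt_d9]
  have h2p : (0 : ℝ) < 2 ^ p := by positivity
  refine ⟨by positivity, ?_⟩
  have h3 : Real.log (Q * p / t * 2 ^ p * Real.log 2) ≤
      Real.log Q + Real.log p - Real.log t + p * Real.log 2 := by
    rw [Real.log_mul (by positivity) hl2.ne', Real.log_mul (by positivity) h2p.ne',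
      Real.log_div (by positivity) ht.ne', Real.log_mul hQ.ne' hp0.ne', Real.log_rpow (by norm_num)]
    have := Real.log_nonpos hl2.le hl21
    linarith
  have h4 : Real.log Q ≤ Q := (Real.log_le_sub_one_of_pos hQ).trans (by linarith)
  have h5 : Real.log p ≤ Q := (Real.log_le_sub_one_of_pos hp0).trans (by linarith)
  have h6 : -Real.log t ≤ 1 / t := by
    have := Real.log_le_sub_one_of_pos (show 0 < 1 / t by positivity)
    rw [one_div, Real.log_inv] at this
    rw [one_div]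
    linarith
  have h7 : p * Real.log 2 ≤ Q := (mul_le_of_le_one_right hp0.le hl21).trans (by linarith)
  have h8 : Real.log (Q * p / t * 2 ^ p * Real.log 2) ≤ 3 * Q + 1 / t := by linarith
  calc t / Q * Real.log (Q * p / t * 2 ^ p * Real.log 2) ≤ t / Q * (3 * Q + 1 / t) :=
        mul_le_mul_of_nonneg_left h8 (by positivity)
    _ = 3 * t + 1 / Q := by field_simp
    _ ≤ 4 := by
        have : 1 / Q ≤ 1 := by rw [div_le_one hQ]; linarith
        linarith

theorem pf_N3 (h0 : U_S0) (h1 : U_S1) : U_N3 := by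
  obtain ⟨A0, hA0⟩ := h0
  refine ⟨28 + |A0|, fun n hn p hp hpQ => ?_⟩
  have hn1 : (1 : ℝ) ≤ n := by exact_mod_cast hn
  have hn0 : (0 : ℝ) < n := by linarith
  have hp0 : 0 < p := by linarith
  have hp1 : 0 < p - 1 := by linarith
  have ht : 0 < 2 * (n : ℝ) + 2 - p := by linarith
  have hQ : 0 < 2 * (n : ℝ) + 2 := by linarith
  have hsp : 0 < sg n p := sg_pos hn hp0.le
  have hsp1 : 0 < sg n (p - 1) := sg_pos hn hp1.le
  have hs0 : 0 < sg n 0 := sg_pos hn le_rfl
  obtain ⟨hD0, hD⟩ := n3_DD hn hp hpQ rfl rfl hsp hsp1 (h1 n hn (p - 1) hp1.le (by linarith)).1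
    (h1 n hn p hp0.le hpQ.le).2
  obtain ⟨hF0, hF⟩ := n3_first hn hp hpQ
  have hUB : 0 < UB n p (sg n 0) := by
    unfold UB
    exact mul_pos (Real.rpow_pos_of_pos hF0 _) (Real.rpow_pos_of_pos hD0 _)
  refine ⟨hUB, ?_⟩
  have hlogUB : Real.log (UB n p (sg n 0)) = (2 * (n : ℝ) + 2 - p) / (2 * n + 2) *
      Real.log ((2 * n + 2) * p / (2 * n + 2 - p) * 2 ^ p * Real.log 2) +
      p * Real.log (DD n p (sg n 0)) := by
    unfold UB
    rw [Real.log_mul (Real.rpow_pos_of_pos hF0 _).ne' (Real.rpow_pos_of_pos hD0 _).ne',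
      Real.log_rpow hF0, Real.log_rpow hD0]
  have hpie : 0 < Real.pi * Real.exp 1 := by positivity
  have hlogMM : Real.log (MM n p) = p / 2 * Real.log (n / (Real.pi * Real.exp 1)) +
      p * Real.log p - Real.log (2 * n + 2) - (p - 1) * Real.log (2 * n + 2 - p) := by
    unfold MM
    have e1 : 0 < (n / (Real.pi * Real.exp 1)) ^ (p / 2) :=
      Real.rpow_pos_of_pos (by positivity) _
    have e2 : 0 < p ^ p := Real.rpow_pos_of_pos hp0 _
    have e3 : 0 < (2 * (n : ℝ) + 2 - p) ^ (p - 1) := Real.rpow_pos_of_pos ht _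
    rw [Real.log_div (by positivity) (by positivity), Real.log_mul e1.ne' e2.ne',
      Real.log_mul hQ.ne' e3.ne', Real.log_rpow (by positivity), Real.log_rpow hp0,
      Real.log_rpow ht]
    ring
  set l : ℝ := Real.log (n / (Real.pi * Real.exp 1)) with hl
  have hl' : Real.log (Real.pi * Real.exp 1 / n) = -l := by
    rw [hl, ← Real.log_inv, inv_div]
  have hl4 : -4 ≤ l := by
    rw [hl, Real.log_div hn0.ne' hpie.ne', Real.log_mul Real.pi_pos.ne' (Real.exp_pos 1).ne',
      Real.log_exp]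
    have e4 := Real.log_nonneg hn1
    have e5 := Real.log_le_sub_one_of_pos Real.pi_pos
    have e6 := Real.pi_lt_d2
    linarith
  set L : ℝ := Real.log (n + 1) with hL
  have hL1 : 1 / 2 ≤ L := by
    have e7 : Real.log 2 ≤ L := Real.log_le_log (by norm_num) (by linarith)
    linarith [Real.log_two_gt_d9]
  have hB := (abs_le.1 (hA0 n hn)).1
  rw [hl'] at hB
  have hBB : -Real.log (sg n 0) ≤ n * l + |A0| * L := by
    have e8 : A0 * L ≤ |A0| * L := mul_le_mul_of_nonneg_right (le_abs_self _) (by linarith)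
    linarith
  have hpQ' : p / (2 * (n : ℝ) + 2) ≤ p / n :=
    div_le_div_of_nonneg_left hp0.le hn0 (by linarith)
  have hmain : -(p / (2 * n + 2)) * Real.log (sg n 0) ≤ p / 2 * l + 4 + |A0| * p * L / n := by
    have e9 := mul_le_mul_of_nonneg_left hBB (show 0 ≤ p / (2 * (n : ℝ) + 2) by positivity)
    have e10 : p / (2 * (n : ℝ) + 2) * (n * l + |A0| * L) =
        p / 2 * l + p / (2 * n + 2) * (-l) + p / (2 * n + 2) * (|A0| * L) := by
      field_simp
      ring
    have e11 : p / (2 * (n : ℝ) + 2) * (-l) ≤ 4 := by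
      have e12 : p / (2 * (n : ℝ) + 2) ≤ 1 := by rw [div_le_one hQ]; exact hpQ.le
      have e13 : 0 ≤ p / (2 * (n : ℝ) + 2) := by positivity
      calc p / (2 * (n : ℝ) + 2) * (-l) ≤ p / (2 * (n : ℝ) + 2) * 4 :=
            mul_le_mul_of_nonneg_left (by linarith) e13
        _ ≤ 4 := by linarith
    have e14 : p / (2 * (n : ℝ) + 2) * (|A0| * L) ≤ |A0| * p * L / n := by
      calc p / (2 * (n : ℝ) + 2) * (|A0| * L) ≤ p / n * (|A0| * L) :=
            mul_le_mul_of_nonneg_right hpQ' (by positivity)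
        _ = _ := by ring
    linarith
  have hlog3 : Real.log 3 ≤ 2 := by
    have := Real.log_le_sub_one_of_pos (show (0 : ℝ) < 3 by norm_num)
    linarith
  have hlogp : (p - 1) * Real.log (p - 1) ≤ (p - 1) * Real.log p :=
    mul_le_mul_of_nonneg_left (Real.log_le_log hp1 (by linarith)) hp1.le
  have hlogQ : Real.log (2 * n + 2) ≤ Real.log p + 1 := by
    have e15 : Real.log (2 * n + 2) ≤ Real.log (2 * p) := Real.log_le_log hQ (by linarith)
    rw [Real.log_mul (by norm_num) hp0.ne'] at e15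
    linarith [Real.log_two_lt_d9]
  have hpn : 1 ≤ p / n := by rw [le_div_iff₀ hn0]; linarith
  have hpn' : 14 * (p / n) ≤ 28 * p * L / n := by
    have e16 : 28 * p * L / n = 28 * (p / n) * L := by ring
    rw [e16]
    have e21 : 28 * (p / n) * (1 / 2) ≤ 28 * (p / n) * L :=
      mul_le_mul_of_nonneg_left hL1 (by positivity)
    linarith
  have e17 : 3 * p / n = 3 * (p / n) := by ring
  have e18 : (28 + |A0|) * p * L / n = 28 * p * L / n + |A0| * p * L / n := by ring
  rw [e17] at hD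
  rw [hlogUB, hlogMM, e18]
  have e19 : (p - 1) * (Real.log (p - 1) - Real.log (2 * n + 2 - p)) =
    (p - 1) * Real.log (p - 1) - (p - 1) * Real.log (2 * n + 2 - p) := by ring
  rw [e19] at hD
  have e20 : (p - 1) * Real.log p = p * Real.log p - Real.log p := by ring
  rw [e20] at hlogp
  linarith

end Pool.Agent.H87.HQ
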