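import Pool.Agent.H93.HQ.Targets

namespace Pool.Agent.H87.HQ
open MeasureTheory Set Filter Topology Pool.Agent.H80.HS Pool.Agent.H93.HQ
open scoped ENNReal ContDiff

lemma lp_tail {a c : ℝ} (ha : 0 < a) (hc : 0 < c) :
    ∫⁻ r in Ioi c, ENNReal.ofReal (r ^ (-a - 1)) = ENNReal.ofReal (c ^ (-a) / a) := by
  rw [← ofReal_integral_eq_lintegral_ofReal, integral_Ioi_rpow_of_lt (by linarith) hc]
  · congr 1
    have : -a - 1 + 1 = -a := by ring
    rw [this, neg_div_neg_eq]
  · exact integrableOn_Ioi_rpow_of_lt (by linarith) hc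
  · filter_upwards [ae_restrict_mem measurableSet_Ioi] with r hr
    exact Real.rpow_nonneg (hc.trans hr).le _

lemma lp_head {d : ℝ} (hd : 0 < d) :
    ∫⁻ r in Ioc (0 : ℝ) 1, ENNReal.ofReal (r ^ (d - 1)) = ENNReal.ofReal (1 / d) := by
  have hI : IntervalIntegrable (fun r : ℝ => r ^ (d - 1)) volume 0 1 :=
    intervalIntegral.intervalIntegrable_rpow' (by linarith)
  rw [← ofReal_integral_eq_lintegral_ofReal, ← intervalIntegral.integral_of_le zero_le_one,
    integral_rpow (Or.inl (by linarith))]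
  · congr 1
    have : d - 1 + 1 = d := by ring
    rw [this, Real.one_rpow, Real.zero_rpow hd.ne', sub_zero]
  · exact (intervalIntegrable_iff_integrableOn_Ioc_of_le zero_le_one).1 hI
  · filter_upwards [ae_restrict_mem measurableSet_Ioc] with r hr
    exact Real.rpow_nonneg hr.1.le _

theorem pf_LP (h : U_RI) : U_LP := by
  intro n hn p C hp hpQ hC
  have hn1 : (1 : ℝ) ≤ n := by exact_mod_cast hn
  have hp1 : 0 < p - 1 := by linarith
  have hp0 : 0 < p := by linarith
  have hQp : 0 < 2 * (n : ℝ) + 2 - p := by linarith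
  have hQ0 : 0 < 2 * (n : ℝ) + 2 := by linarith
  set b : ℝ := (2 * (n : ℝ) + 2 - p) / (p - 1) with hb
  have hb0 : 0 < b := div_pos hQp hp1
  have hs0 : 0 < sg n 0 := sg_pos hn le_rfl
  have hsp : 0 < sg n p := sg_pos hn hp0.le
  have h1 := h n hn p C hp hpQ hC
    (fun r => r ^ (-b - 1) * Real.smoothTransition (2 * r - 1))
    (by
      intro r hr
      have hr0 : (r : ℝ) ≠ 0 := (show 0 < r from hr).ne'
      apply ContDiffAt.contDiffWithinAt
      apply ContDiffAt.mul
      · exact Real.contDiffAt_rpow_const_of_ne hr0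
      · have : ContDiff ℝ ∞ Real.smoothTransition := Real.smoothTransition.contDiff
        exact (this.comp (by fun_prop : ContDiff ℝ ∞ (fun r : ℝ => 2 * r - 1))).contDiffAt)
    (fun r hr => mul_nonneg (Real.rpow_nonneg hr.le _) (Real.smoothTransition.nonneg _))
  set q : ℝ := (2 * (n : ℝ) + 2) * p / (2 * n + 2 - p) with hq
  have hq0 : 0 < q := by positivity
  -- right side
  have hR : ∫⁻ r in Ioi (0 : ℝ), ENNReal.ofReal
      ((r ^ (-b - 1) * Real.smoothTransition (2 * r - 1)) ^ p * r ^ (2 * (n : ℝ) + 1)) ≤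
      ENNReal.ofReal ((1 / 2) ^ (-b) / b) := by
    rw [← lp_tail hb0 (show (0 : ℝ) < 1 / 2 by norm_num)]
    rw [← lintegral_indicator measurableSet_Ioi, ← lintegral_indicator measurableSet_Ioi]
    apply lintegral_mono
    intro r
    by_cases hr : 1 / 2 < r
    · have hr0 : 0 < r := by linarith
      rw [indicator_of_mem (show r ∈ Ioi (0 : ℝ) from hr0),
        indicator_of_mem (show r ∈ Ioi (1 / 2 : ℝ) from hr)]
      apply ENNReal.ofReal_le_ofReal
      rw [Real.mul_rpow (Real.rpow_nonneg hr0.le _) (Real.smoothTransition.nonneg _),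
        ← Real.rpow_mul hr0.le]
      have e1 : r ^ (-b - 1) = r ^ ((-b - 1) * p) * r ^ (2 * (n : ℝ) + 1) := by
        rw [← Real.rpow_add hr0]
        congr 1
        rw [hb]
        field_simp
        ring
      rw [e1]
      have h2 : Real.smoothTransition (2 * r - 1) ^ p ≤ 1 :=
        Real.rpow_le_one (Real.smoothTransition.nonneg _) (Real.smoothTransition.le_one _) hp0.le
      have h3 : 0 ≤ r ^ ((-b - 1) * p) := Real.rpow_nonneg hr0.le _
      have h4 : 0 ≤ r ^ (2 * (n : ℝ) + 1) := Real.rpow_nonneg hr0.le _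
      calc r ^ ((-b - 1) * p) * Real.smoothTransition (2 * r - 1) ^ p * r ^ (2 * (n : ℝ) + 1)
          ≤ r ^ ((-b - 1) * p) * 1 * r ^ (2 * (n : ℝ) + 1) := by gcongr
        _ = _ := by rw [mul_one]
    · have h5 : Real.smoothTransition (2 * r - 1) = 0 :=
        Real.smoothTransition.zero_of_nonpos (by linarith)
      by_cases hr0 : 0 < r
      · rw [indicator_of_mem (show r ∈ Ioi (0 : ℝ) from hr0), h5, mul_zero,
          Real.zero_rpow hp0.ne', zero_mul, ENNReal.ofReal_zero]
        exact zero_le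
      · rw [indicator_of_notMem (show r ∉ Ioi (0 : ℝ) from hr0)]
        exact zero_le
  -- left side
  have hL : ENNReal.ofReal ((1 / b) ^ q * (1 / (2 * (n : ℝ) + 2))) ≤
      ∫⁻ r in Ioi (0 : ℝ), (∫⁻ s in Ioi r, ENNReal.ofReal
        (s ^ (-b - 1) * Real.smoothTransition (2 * s - 1))) ^ q *
          ENNReal.ofReal (r ^ (2 * (n : ℝ) + 1)) := by
    calc ENNReal.ofReal ((1 / b) ^ q * (1 / (2 * (n : ℝ) + 2)))
        = ∫⁻ r in Ioc (0 : ℝ) 1, ENNReal.ofReal ((1 / b) ^ q) *
            ENNReal.ofReal (r ^ (2 * (n : ℝ) + 1)) := by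
          rw [lintegral_const_mul _ (by fun_prop), ENNReal.ofReal_mul (by positivity)]
          have := lp_head hQ0
          have e : 2 * (n : ℝ) + 2 - 1 = 2 * n + 1 := by ring
          rw [e] at this
          rw [this]
      _ ≤ ∫⁻ r in Ioc (0 : ℝ) 1, (∫⁻ s in Ioi r, ENNReal.ofReal
            (s ^ (-b - 1) * Real.smoothTransition (2 * s - 1))) ^ q *
              ENNReal.ofReal (r ^ (2 * (n : ℝ) + 1)) := by
          refine setLIntegral_mono' measurableSet_Ioc fun r hr => ?_
          have h6 : ENNReal.ofReal (1 / b) ≤ ∫⁻ s in Ioi r, ENNReal.ofReal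
              (s ^ (-b - 1) * Real.smoothTransition (2 * s - 1)) := by
            calc ENNReal.ofReal (1 / b) = ∫⁻ s in Ioi (1 : ℝ), ENNReal.ofReal (s ^ (-b - 1)) := by
                  rw [lp_tail hb0 zero_lt_one, Real.one_rpow]
              _ = ∫⁻ s in Ioi (1 : ℝ), ENNReal.ofReal
                  (s ^ (-b - 1) * Real.smoothTransition (2 * s - 1)) := by
                  apply setLIntegral_congr_fun measurableSet_Ioi
                  intro s hs
                  have hs1 : 1 < s := hs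
                  simp only
                  rw [Real.smoothTransition.one_of_one_le (by linarith), mul_one]
              _ ≤ _ := lintegral_mono_set (Ioi_subset_Ioi hr.2)
          have h7 : ENNReal.ofReal ((1 / b) ^ q) = ENNReal.ofReal (1 / b) ^ q :=
            (ENNReal.ofReal_rpow_of_nonneg (by positivity) hq0.le).symm
          rw [h7]
          gcongr
      _ ≤ _ := lintegral_mono_set Ioc_subset_Ioi_self
  have hE : 0 < (2 * (n : ℝ) + 2 - p) / (2 * n + 2) := by positivity
  have h8 : (ENNReal.ofReal (sg n 0) * ENNReal.ofReal ((1 / b) ^ q * (1 / (2 * (n : ℝ) + 2)))) ^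
      ((2 * (n : ℝ) + 2 - p) / (2 * n + 2)) ≤
      ENNReal.ofReal (C * sg n p) * ENNReal.ofReal ((1 / 2) ^ (-b) / b) := by
    refine le_trans ?_ (h1.trans ?_)
    · gcongr
    · gcongr
  rw [← ENNReal.ofReal_mul hs0.le, ENNReal.ofReal_rpow_of_nonneg (by positivity) hE.le] at h8
  have h9 : (sg n 0 * ((1 / b) ^ q * (1 / (2 * (n : ℝ) + 2)))) ^
      ((2 * (n : ℝ) + 2 - p) / (2 * n + 2)) =
      (sg n 0 / (2 * n + 2)) ^ ((2 * (n : ℝ) + 2 - p) / (2 * n + 2)) * (1 / b) ^ p := by
    have : sg n 0 * ((1 / b) ^ q * (1 / (2 * (n : ℝ) + 2))) =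
        sg n 0 / (2 * n + 2) * (1 / b) ^ q := by ring
    rw [this, Real.mul_rpow (by positivity) (by positivity), ← Real.rpow_mul (by positivity)]
    congr 2
    rw [hq, div_mul_div_comm, div_eq_iff (by positivity)]
    ring
  rw [h9] at h8
  have hpos : 0 < (sg n 0 / (2 * n + 2)) ^ ((2 * (n : ℝ) + 2 - p) / (2 * n + 2)) *
      (1 / b) ^ p := by positivity
  rw [← ENNReal.ofReal_mul' (by positivity), ENNReal.ofReal_le_ofReal_iff'] at h8
  rcases h8 with h8 | h8
  swap
  · linarith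
  unfold LB2
  have e2 : (1 / b) ^ p = (1 / b) * ((p - 1) / (2 * (n : ℝ) + 2 - p)) ^ (p - 1) := by
    have : 1 / b = (p - 1) / (2 * (n : ℝ) + 2 - p) := by
      rw [hb, one_div_div]
    rw [← this]
    have e : p = 1 + (p - 1) := by ring
    conv_lhs => rw [e]
    rw [Real.rpow_add (by positivity), Real.rpow_one]
  have e3 : ((1 : ℝ) / 2) ^ (-b) = (2 ^ (-b))⁻¹ := by
    rw [one_div, Real.inv_rpow (by norm_num)]
  rw [e2, e3] at h8
  have h2b : (0 : ℝ) < 2 ^ (-b) := by positivity
  set X : ℝ := (sg n 0 / (2 * n + 2)) ^ ((2 * (n : ℝ) + 2 - p) / (2 * n + 2)) with hX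
  set Y : ℝ := ((p - 1) / (2 * (n : ℝ) + 2 - p)) ^ (p - 1) with hY
  have h10 : X * Y * 2 ^ (-b) ≤ C * sg n p := by
    have := mul_le_mul_of_nonneg_right h8 (show 0 ≤ b * 2 ^ (-b) by positivity)
    have e4 : X * (1 / b * Y) * (b * 2 ^ (-b)) = X * Y * 2 ^ (-b) := by
      field_simp
    have e5 : C * sg n p * ((2 ^ (-b))⁻¹ / b) * (b * 2 ^ (-b)) = C * sg n p := by
      field_simp
    rw [e4, e5] at this
    exact this
  have e6 : X * 2 ^ (-b) * (sg n p)⁻¹ * Y = X * Y * 2 ^ (-b) / sg n p := by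
    rw [div_eq_mul_inv]; ring
  rw [e6, div_le_iff₀ hsp]
  exact h10

end Pool.Agent.H87.HQ
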